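import Pool.Agent.W996.EC.VStm

/-!
EC project, from the explicit form to varieties: algebra of the function field.
-/

set_option autoImplicit false
set_option linter.all false

namespace Pool.Agent.W333.ECV

open Polynomial

/-- the function field of a prime ideal -/
theorem exists_field {σ : Type} (P : Ideal (MvPolynomial σ ℂ)) (hP : P.IsPrime) :
    ∃ (L : Type) (_ : Field L) (_ : Algebra ℂ L) (ξ : σ → L),
      (∀ f, MvPolynomial.aeval ξ f = 0 ↔ f ∈ P) ∧
      ∀ u : L, ∃ f g : MvPolynomial σ ℂ, MvPolynomial.aeval ξ g ≠ 0 ∧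
        u * MvPolynomial.aeval ξ g = MvPolynomial.aeval ξ f := by
  haveI := hP
  let A := MvPolynomial σ ℂ ⧸ P
  let L := FractionRing A
  let ξ : σ → L := fun i => algebraMap A L (Ideal.Quotient.mk P (MvPolynomial.X i))
  have h : ∀ f, MvPolynomial.aeval ξ f = algebraMap A L (Ideal.Quotient.mk P f) := by
    intro f
    have : MvPolynomial.aeval ξ = (IsScalarTower.toAlgHom ℂ A L).comp (Ideal.Quotient.mkₐ ℂ P) := by
      ext i
      simp only [MvPolynomial.aeval_X]
      rfl
    rw [this]
    rfl
  refine ⟨L, inferInstance, inferInstance, ξ, fun f => ?_, fun u => ?_⟩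
  · rw [h, ← Ideal.Quotient.eq_zero_iff_mem]
    exact (injective_iff_map_eq_zero' _).mp (IsFractionRing.injective A L) _
  · obtain ⟨a, b, hb, rfl⟩ := IsFractionRing.div_surjective (A := A) u
    obtain ⟨f, rfl⟩ := Ideal.Quotient.mk_surjective a
    obtain ⟨g, rfl⟩ := Ideal.Quotient.mk_surjective b
    have hg : algebraMap A L (Ideal.Quotient.mk P g) ≠ 0 := by
      rw [Ne, map_eq_zero_iff _ (IsFractionRing.injective A L)]
      exact nonZeroDivisors.ne_zero hb
    refine ⟨f, g, by rw [h]; exact hg, ?_⟩
    rw [h, h, div_mul_cancel₀ _ hg]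

/-- Nullstellensatz with an excluded hypersurface -/
theorem nullst {σ : Type} [Finite σ] (P : Ideal (MvPolynomial σ ℂ)) (hP : P.IsPrime)
    (g : MvPolynomial σ ℂ) (hg : g ∉ P) (f : MvPolynomial σ ℂ)
    (h : ∀ p : σ → ℂ, (∀ q ∈ P, MvPolynomial.eval p q = 0) → MvPolynomial.eval p g ≠ 0 →
      MvPolynomial.eval p f = 0) : f ∈ P := by
  haveI := hP
  have h1 : f * g ∈ MvPolynomial.vanishingIdeal ℂ (MvPolynomial.zeroLocus ℂ P) := by
    rw [MvPolynomial.mem_vanishingIdeal_iff]
    intro p hp
    rw [MvPolynomial.mem_zeroLocus_iff] at hp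
    rw [map_mul]
    by_cases h2 : MvPolynomial.eval p g = 0
    · have : MvPolynomial.aeval p g = 0 := by rw [MvPolynomial.aeval_eq_eval]; exact h2
      rw [this, mul_zero]
    · have h3 := h p (fun q hq => by have := hp q hq; rwa [MvPolynomial.aeval_eq_eval] at this) h2
      have : MvPolynomial.aeval p f = 0 := by rw [MvPolynomial.aeval_eq_eval]; exact h3
      rw [this, zero_mul]
  rw [MvPolynomial.IsPrime.vanishingIdeal_zeroLocus] at h1
  exact (hP.mem_or_mem h1).resolve_right hg

section trd

variable {L : Type} [Field L] [Algebra ℂ L] {n : ℕ} {x y : Fin n → L}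

/-- pairwise dependent elements: transcendence degree at most one -/
theorem trdeg_K1 (hdep : ∀ i j, ∃ f : MvPolynomial (Fin 2) ℂ, f ≠ 0 ∧
    MvPolynomial.aeval ![y i, y j] f = 0) :
    Algebra.trdeg ℂ (IntermediateField.adjoin ℂ (Set.range y)) ≤ 1 := by
  set K := IntermediateField.adjoin ℂ (Set.range y) with hK
  let y' : Fin n → K := fun i => ⟨y i, IntermediateField.subset_adjoin _ _ ⟨i, rfl⟩⟩
  have hadj : IntermediateField.adjoin ℂ (Set.range y') = ⊤ := by
    apply IntermediateField.lift_injective K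
    rw [IntermediateField.lift_top, IntermediateField.lift_adjoin, ← Set.range_comp]
    rfl
  haveI : Algebra.IsAlgebraic (Algebra.adjoin ℂ (Set.range y')) K := by
    rw [← IntermediateField.isAlgebraic_adjoin_iff_top, hadj]
    exact ⟨fun z => isAlgebraic_algebraMap (⟨z, trivial⟩ : (⊤ : IntermediateField ℂ K))⟩
  obtain ⟨t, ht, hb⟩ := exists_isTranscendenceBasis_subset (R := ℂ) (A := K) (Set.range y')
  rw [← hb.cardinalMk_eq_trdeg]
  rw [Cardinal.mk_le_one_iff_set_subsingleton]
  intro a ha b hb'
  by_contra hab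
  obtain ⟨i, rfl⟩ := ht ha
  obtain ⟨j, rfl⟩ := ht hb'
  obtain ⟨f, hf, h0⟩ := hdep i j
  let ι : Fin 2 → t := ![⟨y' i, ha⟩, ⟨y' j, hb'⟩]
  have hι : Function.Injective ι := by
    intro u v huv
    fin_cases u <;> fin_cases v
    · rfl
    · exact absurd (congrArg Subtype.val huv) hab
    · exact absurd (congrArg Subtype.val huv).symm hab
    · rfl
  have h1 := hb.1.comp ι hι
  rw [algebraicIndependent_iff] at h1
  apply hf
  apply h1
  apply Subtype.val_injective
  have h2 : (((MvPolynomial.aeval (Subtype.val ∘ ι)) f : K) : L) =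
      MvPolynomial.aeval ![y i, y j] f := by
    have h3 : K.val ((MvPolynomial.aeval (Subtype.val ∘ ι)) f) =
        MvPolynomial.aeval (fun k => K.val ((Subtype.val ∘ ι) k)) f :=
      MvPolynomial.comp_aeval_apply _ K.val f
    show K.val _ = _
    rw [h3]
    congr 2
    funext k
    fin_cases k <;> rfl
  rw [h2, h0]
  rfl

/-- transcendence degree over the field of the `y` -/
theorem trd (hgen : ∀ u : L, ∃ f g : MvPolynomial (Fin n ⊕ Fin n) ℂ,
      MvPolynomial.aeval (Sum.elim x y) g ≠ 0 ∧
        u * MvPolynomial.aeval (Sum.elim x y) g = MvPolynomial.aeval (Sum.elim x y) f)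
    (hdep : ∀ i j, ∃ f : MvPolynomial (Fin 2) ℂ, f ≠ 0 ∧
      MvPolynomial.aeval ![y i, y j] f = 0)
    (J : Finset (Fin n ⊕ Fin n)) (hJ : n ≤ J.card)
    (hJi : AlgebraicIndependent ℂ (fun j : J => Sum.elim x y j)) :
    ∃ J' : Finset (Fin n), n ≤ J'.card + 1 ∧
      AlgebraicIndependent (IntermediateField.adjoin ℂ (Set.range y)) (fun j : J' => x j) := by
  classical
  have h1 := trdeg_K1 hdep
  set K := IntermediateField.adjoin ℂ (Set.range y) with hK
  have h2 : (n : Cardinal) ≤ Algebra.trdeg ℂ L := by
    refine le_trans ?_ hJi.cardinalMk_le_trdeg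
    rw [Cardinal.mk_coe_finset]
    exact_mod_cast hJ
  have h3 := trdeg_add_eq (A := L) ℂ K
  -- L is algebraic over K(x)
  have htop : IntermediateField.adjoin K (Set.range x) = ⊤ := by
    rw [eq_top_iff]
    intro u _
    have hmem : ∀ f : MvPolynomial (Fin n ⊕ Fin n) ℂ,
        MvPolynomial.aeval (Sum.elim x y) f ∈ IntermediateField.adjoin K (Set.range x) := by
      intro f
      induction f using MvPolynomial.induction_on with
      | C a =>
        rw [MvPolynomial.aeval_C]
        have : algebraMap ℂ L a = algebraMap K L (algebraMap ℂ K a) := rfl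
        rw [this]
        exact IntermediateField.algebraMap_mem _ _
      | add p q hp hq => rw [map_add]; exact add_mem hp hq
      | mul_X p i hp =>
        rw [map_mul, MvPolynomial.aeval_X]
        refine mul_mem hp ?_
        rcases i with i | i
        · exact IntermediateField.subset_adjoin _ _ ⟨i, rfl⟩
        · have : (Sum.elim x y (Sum.inr i) : L) =
            algebraMap K L ⟨y i, IntermediateField.subset_adjoin _ _ ⟨i, rfl⟩⟩ := rfl
          rw [this]
          exact IntermediateField.algebraMap_mem _ _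
    obtain ⟨f, g, hg, hu⟩ := hgen u
    rw [eq_div_of_mul_eq hg hu]
    exact div_mem (hmem f) (hmem g)
  haveI : Algebra.IsAlgebraic (Algebra.adjoin K (Set.range x)) L := by
    rw [← IntermediateField.isAlgebraic_adjoin_iff_top, htop]
    exact ⟨fun z => isAlgebraic_algebraMap (⟨z, trivial⟩ : (⊤ : IntermediateField K L))⟩
  obtain ⟨t, ht, hb⟩ := exists_isTranscendenceBasis_subset (R := K) (A := L) (Set.range x)
  have htf : t.Finite := (Set.finite_range x).subset ht
  choose idx hidx using fun u : t => ht u.2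
  have hinj : Function.Injective idx := by
    intro u v huv
    apply Subtype.ext
    rw [← hidx u, ← hidx v, huv]
  haveI : Fintype t := htf.fintype
  set S : Finset (Fin n) := Finset.univ.image idx with hS
  refine ⟨S, ?_, ?_⟩
  · rw [hS, Finset.card_image_of_injective _ hinj, Finset.card_univ]
    rw [← hb.cardinalMk_eq_trdeg, Cardinal.mk_fintype] at h3
    have h4 : (n : Cardinal) ≤ 1 + (Fintype.card t : Cardinal) := by
      refine h2.trans ?_
      rw [← h3]
      exact add_le_add h1 le_rfl
    have h5 : n ≤ 1 + Fintype.card t := by exact_mod_cast h4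
    omega
  · -- reindex
    have hmem : ∀ j : S, x j ∈ t := by
      rintro ⟨j, hj⟩
      obtain ⟨u, -, rfl⟩ := Finset.mem_image.mp hj
      show x (idx u) ∈ t
      rw [hidx u]; exact u.2
    let κ : S → t := fun j => ⟨x j, hmem j⟩
    have hκ : Function.Injective κ := by
      rintro ⟨j, hj⟩ ⟨k, hk⟩ h
      obtain ⟨u, -, rfl⟩ := Finset.mem_image.mp hj
      obtain ⟨v, -, rfl⟩ := Finset.mem_image.mp hk
      have h6 : x (idx u) = x (idx v) := congrArg Subtype.val h
      have h7 : u = v := by
        apply Subtype.ext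
        rw [← hidx u, ← hidx v, h6]
      subst h7
      rfl
    exact hb.1.comp κ hκ

end trd

end Pool.Agent.W333.ECV
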