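import Pool.Agent.W996.EC.VStm

/-!
EC project, from the explicit form to varieties: transfer of identities from the function field of
the plane curve to its points.
-/

set_option autoImplicit false
set_option linter.all false

namespace Pool.Agent.W333.ECV

open Polynomial Pool.Agent.W996.EC

/-- `f(X, y)` -/
noncomputable def fS {S : Type} [CommRing S] {n : ℕ} (c : ℂ →+* S) (y : Fin n → S)
    (f : MvPolynomial (Fin n ⊕ Fin n) ℂ) : MvPolynomial (Fin n) S :=
  MvPolynomial.map (MvPolynomial.eval₂Hom c y) (MvPolynomial.sumAlgEquiv ℂ (Fin n) (Fin n) f)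

theorem fS_hom {S : Type} [CommRing S] {n : ℕ} (c : ℂ →+* S) (y : Fin n → S) :
    ∃ θ : MvPolynomial (Fin n ⊕ Fin n) ℂ →+* MvPolynomial (Fin n) S, (∀ f, θ f = fS c y f) ∧
      (∀ a, θ (MvPolynomial.C a) = MvPolynomial.C (c a)) ∧
      (∀ i, θ (MvPolynomial.X (Sum.inl i)) = MvPolynomial.X i) ∧
      (∀ i, θ (MvPolynomial.X (Sum.inr i)) = MvPolynomial.C (y i)) := by
  refine ⟨(MvPolynomial.map (MvPolynomial.eval₂Hom c y)).comp
    (MvPolynomial.sumAlgEquiv ℂ (Fin n) (Fin n)).toRingEquiv.toRingHom, fun f => rfl, ?_, ?_, ?_⟩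
  · intro a
    show MvPolynomial.map _ (MvPolynomial.sumAlgEquiv ℂ (Fin n) (Fin n) (MvPolynomial.C a)) = _
    simp
  · intro i
    show MvPolynomial.map _ (MvPolynomial.sumAlgEquiv ℂ (Fin n) (Fin n) (MvPolynomial.X _)) = _
    simp
  · intro i
    show MvPolynomial.map _ (MvPolynomial.sumAlgEquiv ℂ (Fin n) (Fin n) (MvPolynomial.X _)) = _
    simp

theorem map_fS {S S' : Type} [CommRing S] [CommRing S'] {n : ℕ} (c : ℂ →+* S) (y : Fin n → S)
    (θ : S →+* S') (f : MvPolynomial (Fin n ⊕ Fin n) ℂ) :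
    MvPolynomial.map θ (fS c y f) = fS (θ.comp c) (fun i => θ (y i)) f := by
  unfold fS
  rw [MvPolynomial.map_map, MvPolynomial.comp_eval₂Hom]

theorem eval_fS {S : Type} [CommRing S] {n : ℕ} (c : ℂ →+* S) (x y : Fin n → S)
    (f : MvPolynomial (Fin n ⊕ Fin n) ℂ) :
    MvPolynomial.eval x (fS c y f) = MvPolynomial.eval₂ c (Sum.elim x y) f := by
  obtain ⟨θ, h1, h2, h3, h4⟩ := fS_hom c y
  have h : (MvPolynomial.eval x).comp θ = MvPolynomial.eval₂Hom c (Sum.elim x y) := by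
    apply MvPolynomial.ringHom_ext
    · intro a; simp [h2]
    · intro i
      rcases i with i | i
      · simp [h3]
      · simp [h4]
  have h5 := congrArg (fun g => g f) h
  simp only [RingHom.comp_apply, h1] at h5
  exact h5

theorem aeval_fS {K L : Type} [Field K] [Field L] [Algebra K L] {n : ℕ} (c : ℂ →+* K)
    (x : Fin n → L) (y : Fin n → K) (f : MvPolynomial (Fin n ⊕ Fin n) ℂ) :
    MvPolynomial.aeval x (fS c y f) = MvPolynomial.eval₂ ((algebraMap K L).comp c)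
      (Sum.elim x (fun i => algebraMap K L (y i))) f := by
  rw [← eval_fS, ← map_fS, MvPolynomial.aeval_def, ← MvPolynomial.eval₂_eq_eval_map]

section loc

variable {K : Type} [Field K] {F : ℂ[X][X]} {φ : ℂ[X][X] →+* K} {n : ℕ} {A B : Fin n → ℂ[X][X]}
  {y : Fin n → K}

/-- data of the localisation -/
theorem exists_loc (hφ : ∀ G, φ G = 0 ↔ F ∣ G) (hB : ∀ i, φ (B i) ≠ 0)
    (hy : ∀ i, y i * φ (B i) = φ (A i)) :
    ∃ (R : Type) (_ : CommRing R) (ι : ℂ[X][X] →+* R) (Φ : R →+* K) (y' : Fin n → R),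
      (∀ G, Φ (ι G) = φ G) ∧ (∀ i, Φ (y' i) = y i) ∧
      (∀ w : R, ∃ (k : ℕ) (G : ℂ[X][X]), w * ι ((∏ i, B i) ^ k) = ι G) ∧
      ∀ z v : ℂ, F.evalEval z v = 0 → (∀ i, (B i).evalEval z v ≠ 0) →
        ∃ Ψ : R →+* ℂ, (∀ G, Ψ (ι G) = G.evalEval z v) ∧
          (∀ i, Ψ (y' i) = (A i).evalEval z v / (B i).evalEval z v) ∧
          ∀ w : R, Φ w = 0 → Ψ w = 0 := by
  classical
  set B0 : ℂ[X][X] := ∏ i, B i with hB0
  have hB0φ : φ B0 ≠ 0 := by
    rw [hB0, map_prod]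
    exact Finset.prod_ne_zero_iff.mpr fun i _ => hB i
  let R := Localization.Away B0
  let ι : ℂ[X][X] →+* R := algebraMap ℂ[X][X] R
  let Φ : R →+* K := IsLocalization.Away.lift B0 (g := φ) (isUnit_iff_ne_zero.mpr hB0φ)
  have hΦ : ∀ G, Φ (ι G) = φ G := fun G => IsLocalization.Away.lift_eq B0 _ G
  have hu : ∀ i, IsUnit (ι (B i)) := fun i =>
    isUnit_of_dvd_unit (map_dvd ι (Finset.dvd_prod_of_mem B (Finset.mem_univ i)))
      (IsLocalization.Away.algebraMap_isUnit B0)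
  let y' : Fin n → R := fun i => ι (A i) * ((hu i).unit⁻¹ : Rˣ)
  have hy' : ∀ i, y' i * ι (B i) = ι (A i) := by
    intro i
    simp only [y']
    rw [mul_assoc]
    have : (((hu i).unit⁻¹ : Rˣ) : R) * ι (B i) = 1 := (hu i).val_inv_mul
    rw [this, mul_one]
  have hsurj : ∀ w : R, ∃ (k : ℕ) (G : ℂ[X][X]), w * ι (B0 ^ k) = ι G := by
    intro w
    obtain ⟨⟨G, ⟨_, k, rfl⟩⟩, h⟩ := IsLocalization.surj (Submonoid.powers B0) w
    exact ⟨k, G, h⟩
  refine ⟨R, inferInstance, ι, Φ, y', hΦ, ?_, hsurj, ?_⟩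
  · intro i
    have h1 := congrArg Φ (hy' i)
    rw [map_mul, hΦ, hΦ, ← hy i] at h1
    exact mul_right_cancel₀ (hB i) h1
  · intro z v hz hv
    have hB0v : evalEvalRingHom z v B0 ≠ 0 := by
      rw [hB0, map_prod]
      exact Finset.prod_ne_zero_iff.mpr fun i _ => hv i
    let Ψ : R →+* ℂ := IsLocalization.Away.lift B0 (g := evalEvalRingHom z v)
      (isUnit_iff_ne_zero.mpr hB0v)
    have hΨ : ∀ G, Ψ (ι G) = G.evalEval z v := fun G => IsLocalization.Away.lift_eq B0 _ G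
    refine ⟨Ψ, hΨ, fun i => ?_, fun w hw => ?_⟩
    · have h1 := congrArg Ψ (hy' i)
      rw [map_mul, hΨ, hΨ] at h1
      exact eq_div_of_mul_eq (hv i) h1
    · obtain ⟨k, G, h⟩ := hsurj w
      have h1 := congrArg Φ h
      rw [map_mul, hw, zero_mul, hΦ] at h1
      have h2 := dvd_vanish ((hφ G).mp h1.symm) hz
      have h3 := congrArg Ψ h
      rw [map_mul, hΨ, hΨ, h2] at h3
      refine (mul_eq_zero.mp h3).resolve_right ?_
      have : (B0 ^ k).evalEval z v = (evalEvalRingHom z v B0) ^ k := by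
        rw [← map_pow]; rfl
      rw [this]
      exact pow_ne_zero _ hB0v

/-- transfer of an identity to the points of the curve -/
theorem transfer (hφ : ∀ G, φ G = 0 ↔ F ∣ G) (hB : ∀ i, φ (B i) ≠ 0)
    (hy : ∀ i, y i * φ (B i) = φ (A i)) (f : MvPolynomial (Fin n ⊕ Fin n) ℂ) (D : ℂ[X][X])
    (Q : MvPolynomial (Fin n) ℂ[X][X])
    (h : MvPolynomial.C (φ D) * fS (φ.comp (C.comp C)) y f = MvPolynomial.map φ Q)
    (z v : ℂ) (hz : F.evalEval z v = 0) (hv : ∀ i, (B i).evalEval z v ≠ 0) :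
    MvPolynomial.C (D.evalEval z v) *
      fS (RingHom.id ℂ) (fun i => (A i).evalEval z v / (B i).evalEval z v) f = spec Q z v := by
  obtain ⟨R, _, ι, Φ, y', h1, h2, h3, h4⟩ := exists_loc hφ hB hy
  obtain ⟨Ψ, h5, h6, h7⟩ := h4 z v hz hv
  set W1 : MvPolynomial (Fin n) R := MvPolynomial.C (ι D) * fS (ι.comp (C.comp C)) y' f with hW1
  set W2 : MvPolynomial (Fin n) R := MvPolynomial.map ι Q with hW2
  have a1 : MvPolynomial.map Φ W1 = MvPolynomial.map Φ W2 := by
    rw [hW1, hW2, map_mul, MvPolynomial.map_C, map_fS, MvPolynomial.map_map, h1]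
    have e1 : (Φ.comp (ι.comp (C.comp C))) = φ.comp (C.comp C) := by
      ext <;> simp [h1]
    have e2 : (fun i => Φ (y' i)) = y := by funext i; exact h2 i
    have e3 : Φ.comp ι = φ := RingHom.ext h1
    rw [← RingHom.comp_assoc, e3, e2]
    exact h
  have a2 : MvPolynomial.map Ψ W1 = MvPolynomial.map Ψ W2 := by
    ext m
    rw [MvPolynomial.coeff_map, MvPolynomial.coeff_map, ← sub_eq_zero, ← map_sub]
    apply h7
    rw [map_sub, ← MvPolynomial.coeff_map, ← MvPolynomial.coeff_map, a1, sub_self]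
  rw [hW1, hW2, map_mul, MvPolynomial.map_C, map_fS, MvPolynomial.map_map, h5] at a2
  have e4 : Ψ.comp ι = evalEvalRingHom z v := by
    apply RingHom.ext
    intro G
    exact h5 G
  have e5 : (fun i => Ψ (y' i)) = fun i => (A i).evalEval z v / (B i).evalEval z v := by
    funext i; exact h6 i
  have e6 : (Ψ.comp (ι.comp (C.comp C))) = RingHom.id ℂ := by
    apply RingHom.ext
    intro a
    simp [h5]
  rw [e4, e5, e6] at a2
  exact a2

/-- numerator of `H(y)` -/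
theorem numer (hφ : ∀ G, φ G = 0 ↔ F ∣ G) (hB : ∀ i, φ (B i) ≠ 0)
    (hy : ∀ i, y i * φ (B i) = φ (A i)) (H : MvPolynomial (Fin n) ℂ)
    (hH : MvPolynomial.eval₂ (φ.comp (C.comp C)) y H ≠ 0) :
    ∃ N : ℂ[X][X], φ N ≠ 0 ∧ ∀ z v : ℂ, F.evalEval z v = 0 → (∀ i, (B i).evalEval z v ≠ 0) →
      N.evalEval z v ≠ 0 →
      MvPolynomial.eval (fun i => (A i).evalEval z v / (B i).evalEval z v) H ≠ 0 := by
  obtain ⟨R, _, ι, Φ, y', h1, h2, h3, h4⟩ := exists_loc hφ hB hy
  set w : R := MvPolynomial.eval₂ (ι.comp (C.comp C)) y' H with hw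
  obtain ⟨k, N, hN⟩ := h3 w
  have e1 : Φ w = MvPolynomial.eval₂ (φ.comp (C.comp C)) y H := by
    rw [hw, MvPolynomial.eval₂_comp_left]
    congr 1
    · ext <;> simp [h1]
    · funext i; exact h2 i
  refine ⟨N, ?_, fun z v hz hv hN0 => ?_⟩
  · rw [← h1, ← hN, map_mul, e1, h1]
    refine mul_ne_zero hH ?_
    rw [map_pow, map_prod]
    exact pow_ne_zero _ (Finset.prod_ne_zero_iff.mpr fun i _ => hB i)
  · obtain ⟨Ψ, h5, h6, h7⟩ := h4 z v hz hv
    have e2 : Ψ w = MvPolynomial.eval (fun i => (A i).evalEval z v / (B i).evalEval z v) H := by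
      rw [hw, MvPolynomial.eval₂_comp_left]
      have e6 : (Ψ.comp (ι.comp (C.comp C))) = RingHom.id ℂ := by
        apply RingHom.ext
        intro a
        simp [h5]
      have e5 : (⇑Ψ ∘ y') = fun i => (A i).evalEval z v / (B i).evalEval z v := by
        funext i; exact h6 i
      rw [e6, e5]
      rfl
    rw [← e2]
    intro h0
    have h8 := congrArg Ψ hN
    rw [map_mul, h0, zero_mul, h5] at h8
    exact hN0 h8.symm

/-- clearing denominators -/
theorem clear (hd : ∀ u : K, ∃ A B : ℂ[X][X], φ B ≠ 0 ∧ u * φ B = φ A)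
    (g : MvPolynomial (Fin n) K) : ∃ (D : ℂ[X][X]) (Q : MvPolynomial (Fin n) ℂ[X][X]),
      φ D ≠ 0 ∧ MvPolynomial.C (φ D) * g = MvPolynomial.map φ Q := by
  induction g using MvPolynomial.induction_on' with
  | monomial u a =>
    obtain ⟨A, B, hB, h⟩ := hd a
    refine ⟨B, MvPolynomial.monomial u A, hB, ?_⟩
    rw [MvPolynomial.C_mul_monomial, MvPolynomial.map_monomial, ← h, mul_comm]
  | add p q hp hq =>
    obtain ⟨D1, Q1, h1, e1⟩ := hp
    obtain ⟨D2, Q2, h2, e2⟩ := hq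
    refine ⟨D1 * D2, MvPolynomial.C D2 * Q1 + MvPolynomial.C D1 * Q2, ?_, ?_⟩
    · rw [map_mul]; exact mul_ne_zero h1 h2
    · rw [map_mul φ, map_mul MvPolynomial.C, map_add (MvPolynomial.map φ),
        map_mul (MvPolynomial.map φ), map_mul (MvPolynomial.map φ), MvPolynomial.map_C,
        MvPolynomial.map_C, ← e1, ← e2]
      ring

end loc

end Pool.Agent.W333.ECV
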