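import Pool.Agent.W996.EC.VStm

/-!
EC project, from the explicit form to varieties: the hypotheses of the main theorem.
-/

set_option autoImplicit false
set_option linter.all false

namespace Pool.Agent.W333.ECV

open Polynomial Pool.Agent.W996.EC

/-- Nullstellensatz for the plane curve -/
theorem nss (h1 : S_res) (h2 : S_cov) {F G : ℂ[X][X]} (hF : Irreducible F) (hd : 1 ≤ F.natDegree)
    (hG : ∀ z v, F.evalEval z v = 0 → G.evalEval z v = 0) : F ∣ G := by
  obtain ⟨h, -, hC⟩ := h2 F 1 hF hd one_ne_zero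
  exact vanish_dvd h1 hC (fun p hp => hG _ _ hp.1)

theorem dvd_sub_subst {K : Type} [Field K] {n : ℕ} (i0 : Fin n) (q g : MvPolynomial (Fin n) K) :
    (MvPolynomial.X i0 - q) ∣ g - MvPolynomial.bind₁ (Function.update MvPolynomial.X i0 q) g := by
  rw [← Ideal.mem_span_singleton, ← Ideal.Quotient.eq_zero_iff_mem, map_sub, sub_eq_zero]
  set I : Ideal (MvPolynomial (Fin n) K) := Ideal.span {MvPolynomial.X i0 - q} with hI
  have h : (Ideal.Quotient.mkₐ K I) =
      (Ideal.Quotient.mkₐ K I).comp (MvPolynomial.bind₁ (Function.update MvPolynomial.X i0 q)) := by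
    apply MvPolynomial.algHom_ext
    intro j
    rw [AlgHom.comp_apply, MvPolynomial.bind₁_X_right]
    by_cases hj : j = i0
    · subst hj
      rw [Function.update_self]
      show Ideal.Quotient.mk I _ = Ideal.Quotient.mk I _
      rw [← sub_eq_zero, ← map_sub, Ideal.Quotient.eq_zero_iff_mem, hI]
      exact Ideal.mem_span_singleton_self _
    · rw [Function.update_of_ne hj]
  exact DFunLike.congr_fun h g

/-- the linear form which is substituted -/
noncomputable def ql {S : Type} [CommRing S] {n : ℕ} (c0 : ℂ →+* S) (m : Fin n → ℤ) (c : ℂ)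
    (i0 : Fin n) : MvPolynomial (Fin n) S :=
  MvPolynomial.C (c0 (c / m i0)) -
    ∑ j ∈ Finset.univ.erase i0, MvPolynomial.C (c0 (m j / m i0)) * MvPolynomial.X j

theorem map_ql {S S' : Type} [CommRing S] [CommRing S'] {n : ℕ} (c0 : ℂ →+* S) (m : Fin n → ℤ)
    (c : ℂ) (i0 : Fin n) (θ : S →+* S') :
    MvPolynomial.map θ (ql c0 m c i0) = ql (θ.comp c0) m c i0 := by
  unfold ql
  rw [map_sub, map_sum, MvPolynomial.map_C]
  congr 1
  refine Finset.sum_congr rfl fun j _ => ?_
  rw [map_mul, MvPolynomial.map_C, MvPolynomial.map_X]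
  rfl

theorem map_upd {S S' : Type} [CommRing S] [CommRing S'] {n : ℕ} (c0 : ℂ →+* S) (m : Fin n → ℤ)
    (c : ℂ) (i0 : Fin n) (θ : S →+* S') (p : MvPolynomial (Fin n) S) :
    MvPolynomial.map θ (MvPolynomial.bind₁ (Function.update MvPolynomial.X i0 (ql c0 m c i0)) p) =
      MvPolynomial.bind₁ (Function.update MvPolynomial.X i0 (ql (θ.comp c0) m c i0))
        (MvPolynomial.map θ p) := by
  rw [MvPolynomial.map_bind₁]
  congr 2
  funext j
  by_cases hj : j = i0
  · subst hj
    rw [Function.update_self, Function.update_self, map_ql]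
  · rw [Function.update_of_ne hj, Function.update_of_ne hj, MvPolynomial.map_X]

section main

variable {K L : Type} [Field K] [Field L] [Algebra K L] {F : ℂ[X][X]} {φ : ℂ[X][X] →+* K} {n : ℕ}

/-- the additive hypothesis -/
theorem additive (h1 : S_res) (h2 : S_cov) (hF : Irreducible F) (hd : 1 ≤ F.natDegree)
    (hφ : ∀ G, φ G = 0 ↔ F ∣ G) (x : Fin n → L) (G : MvPolynomial (Fin n) K) (hG : Irreducible G)
    (hGx : ∀ f, MvPolynomial.aeval x f = 0 ↔ G ∣ f) (PP : MvPolynomial (Fin n) ℂ[X][X])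
    (E : ℂ[X][X]) (hE : φ E ≠ 0) (hPP : MvPolynomial.C (φ E) * G = MvPolynomial.map φ PP)
    (m : Fin n → ℤ) (hm : m ≠ 0) (c : ℂ)
    (hc : ∀ (z v : ℂ) (x : Fin n → ℂ), F.evalEval z v = 0 → ∑ i, (m i : ℂ) * x i = c →
      MvPolynomial.eval x (spec PP z v) = 0) :
    ∑ i, (m i : L) * x i = algebraMap K L (φ (C (C c))) := by
  classical
  obtain ⟨i0, hi0⟩ : ∃ i0, m i0 ≠ 0 := by
    by_contra h
    push Not at h
    exact hm (funext h)
  have hmc : (m i0 : ℂ) ≠ 0 := by exact_mod_cast hi0
  set cS : ℂ →+* ℂ[X][X] := C.comp C with hcS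
  set cK : ℂ →+* K := φ.comp cS with hcK
  -- the substituted polynomial vanishes on the curve
  have s1 : ∀ z v, F.evalEval z v = 0 →
      spec (MvPolynomial.bind₁ (Function.update MvPolynomial.X i0 (ql cS m c i0)) PP) z v = 0 := by
    intro z v hz
    apply MvPolynomial.funext
    intro u
    unfold spec
    rw [map_upd]
    have e1 : (evalEvalRingHom z v).comp cS = RingHom.id ℂ := by
      apply RingHom.ext
      intro a
      simp [hcS]
    rw [e1, map_zero]
    have e2 : ∀ p : MvPolynomial (Fin n) ℂ, MvPolynomial.eval u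
        (MvPolynomial.bind₁ (Function.update MvPolynomial.X i0 (ql (RingHom.id ℂ) m c i0)) p) =
        MvPolynomial.eval (Function.update u i0 (MvPolynomial.eval u (ql (RingHom.id ℂ) m c i0))) p := by
      intro p
      have h3 : (MvPolynomial.eval u : MvPolynomial (Fin n) ℂ →+* ℂ).comp
          ((MvPolynomial.bind₁ (Function.update MvPolynomial.X i0 (ql (RingHom.id ℂ) m c i0))).toRingHom) =
          MvPolynomial.eval (Function.update u i0 (MvPolynomial.eval u (ql (RingHom.id ℂ) m c i0))) := by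
        apply MvPolynomial.ringHom_ext
        · intro a; simp
        · intro j
          by_cases hj : j = i0
          · subst hj; simp
          · simp [Function.update_of_ne hj]
      exact DFunLike.congr_fun h3 p
    rw [e2]
    refine hc z v _ hz ?_
    rw [← Finset.add_sum_erase _ _ (Finset.mem_univ i0), Function.update_self]
    have e3 : MvPolynomial.eval u (ql (RingHom.id ℂ) m c i0) =
        c / m i0 - ∑ j ∈ Finset.univ.erase i0, (m j : ℂ) / m i0 * u j := by
      unfold ql
      simp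
    have e4 : ∑ j ∈ Finset.univ.erase i0, (m j : ℂ) *
        Function.update u i0 (MvPolynomial.eval u (ql (RingHom.id ℂ) m c i0)) j =
        ∑ j ∈ Finset.univ.erase i0, (m j : ℂ) * u j := by
      refine Finset.sum_congr rfl fun j hj => ?_
      rw [Function.update_of_ne (Finset.ne_of_mem_erase hj)]
    rw [e4, e3, mul_sub, Finset.mul_sum]
    have e5 : ∑ j ∈ Finset.univ.erase i0, (m i0 : ℂ) * ((m j : ℂ) / m i0 * u j) =
        ∑ j ∈ Finset.univ.erase i0, (m j : ℂ) * u j := by
      refine Finset.sum_congr rfl fun j _ => ?_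
      field_simp
    rw [e5, mul_div_cancel₀ _ hmc]
    ring
  have s2 : MvPolynomial.map φ
      (MvPolynomial.bind₁ (Function.update MvPolynomial.X i0 (ql cS m c i0)) PP) = 0 := by
    ext u
    rw [MvPolynomial.coeff_map, MvPolynomial.coeff_zero, hφ]
    refine nss h1 h2 hF hd fun z v hz => ?_
    rw [← coeff_spec, s1 z v hz, MvPolynomial.coeff_zero]
  rw [map_upd, ← hPP, map_mul, MvPolynomial.bind₁_C_right] at s2
  have hE' : (MvPolynomial.C (φ E) : MvPolynomial (Fin n) K) ≠ 0 := by
    rw [Ne, MvPolynomial.C_eq_zero]; exact hE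
  have s3 := (mul_eq_zero.mp s2).resolve_left hE'
  have s4 := dvd_sub_subst i0 (ql cK m c i0) G
  rw [show MvPolynomial.bind₁ (Function.update MvPolynomial.X i0 (ql cK m c i0)) G = 0 from s3,
    sub_zero] at s4
  -- the linear form is not a unit
  have s5 : ¬ IsUnit (MvPolynomial.X i0 - ql cK m c i0) := by
    intro hu
    have h3 := hu.map (MvPolynomial.eval (Pi.single i0 (cK (c / m i0)) : Fin n → K))
    rw [map_sub, MvPolynomial.eval_X, Pi.single_eq_same] at h3
    have h4 : MvPolynomial.eval (Pi.single i0 (cK (c / m i0)) : Fin n → K) (ql cK m c i0) =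
        cK (c / m i0) := by
      unfold ql
      rw [map_sub, MvPolynomial.eval_C, map_sum, Finset.sum_eq_zero, sub_zero]
      intro j hj
      rw [map_mul, MvPolynomial.eval_X, Pi.single_eq_of_ne (Finset.ne_of_mem_erase hj), mul_zero]
    rw [h4, sub_self] at h3
    exact not_isUnit_zero h3
  have s6 : G ∣ MvPolynomial.X i0 - ql cK m c i0 := by
    obtain ⟨r, hr⟩ := s4
    rcases hG.isUnit_or_isUnit hr with h | h
    · exact absurd h s5
    · rw [hr]
      exact (h.mul_right_dvd).mpr dvd_rfl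
  have s7 := (hGx _).mpr s6
  rw [map_sub, MvPolynomial.aeval_X, sub_eq_zero] at s7
  unfold ql at s7
  rw [map_sub, MvPolynomial.aeval_C, map_sum] at s7
  set cL : ℂ →+* L := (algebraMap K L).comp cK with hcL
  have s8 : x i0 = cL (c / m i0) - ∑ j ∈ Finset.univ.erase i0, cL (m j / m i0) * x j := by
    rw [s7]
    congr 1
    refine Finset.sum_congr rfl fun j _ => ?_
    rw [map_mul, MvPolynomial.aeval_C, MvPolynomial.aeval_X]
    rfl
  have hcm : ∀ k : ℤ, cL (k : ℂ) = (k : L) := fun k => map_intCast cL k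
  have hmL : (m i0 : L) ≠ 0 := by
    rw [← hcm]
    exact (map_ne_zero cL).mpr hmc
  rw [← Finset.add_sum_erase _ _ (Finset.mem_univ i0), s8, mul_sub, Finset.mul_sum]
  have e5 : ∑ j ∈ Finset.univ.erase i0, (m i0 : L) * (cL ((m j : ℂ) / m i0) * x j) =
      ∑ j ∈ Finset.univ.erase i0, (m j : L) * x j := by
    refine Finset.sum_congr rfl fun j _ => ?_
    rw [map_div₀, hcm, hcm]
    field_simp
  rw [e5, map_div₀, hcm, mul_div_cancel₀ _ hmL]
  show cL c - _ + _ = cL c
  ring

/-- the multiplicative hypothesis -/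
theorem multiplicative (h1 : S_res) (h2 : S_cov) (hF : Irreducible F) (hd : 1 ≤ F.natDegree)
    (hφ : ∀ G, φ G = 0 ↔ F ∣ G) (A B : Fin n → ℂ[X][X]) (hA : ∀ i, φ (A i) ≠ 0)
    (hB : ∀ i, φ (B i) ≠ 0) (y : Fin n → K) (hy : ∀ i, y i * φ (B i) = φ (A i))
    (m : Fin n → ℤ) (c : ℂ)
    (hc : ∀ z v : ℂ, F.evalEval z v = 0 →
      (∀ i, (A i).evalEval z v ≠ 0 ∧ (B i).evalEval z v ≠ 0) →
      ∏ i, ((A i).evalEval z v / (B i).evalEval z v) ^ m i = c) :
    ∏ i, y i ^ (m i).toNat = φ (C (C c)) * ∏ i, y i ^ (-(m i)).toNat := by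
  classical
  set T : ℂ[X][X] := ∏ i, (A i ^ (m i).toNat * B i ^ (-(m i)).toNat) -
    C (C c) * ∏ i, (B i ^ (m i).toNat * A i ^ (-(m i)).toNat) with hT
  have hdvd : F ∣ T * ∏ i, (A i * B i) := by
    refine nss h1 h2 hF hd fun z v hz => ?_
    show evalEvalRingHom z v (T * ∏ i, (A i * B i)) = 0
    rw [map_mul, map_prod]
    by_cases h : ∀ i, (A i).evalEval z v ≠ 0 ∧ (B i).evalEval z v ≠ 0
    · have h3 := hc z v hz h
      have h4 : evalEvalRingHom z v T = 0 := by
        rw [hT, map_sub, map_mul, map_prod, map_prod]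
        have e1 : ∀ i, evalEvalRingHom z v (A i ^ (m i).toNat * B i ^ (-(m i)).toNat) =
            ((A i).evalEval z v / (B i).evalEval z v) ^ m i *
              evalEvalRingHom z v (B i ^ (m i).toNat * A i ^ (-(m i)).toNat) := by
          intro i
          rw [map_mul, map_mul, map_pow, map_pow, map_pow, map_pow]
          have ea : evalEvalRingHom z v (A i) = (A i).evalEval z v := rfl
          have eb : evalEvalRingHom z v (B i) = (B i).evalEval z v := rfl
          rw [ea, eb]
          obtain ⟨ha, hb⟩ := h i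
          have em : m i = ((m i).toNat : ℤ) - ((-(m i)).toNat : ℤ) :=
            (Int.toNat_sub_toNat_neg (m i)).symm
          conv_rhs => rw [em]
          rw [zpow_sub₀ (div_ne_zero ha hb), zpow_natCast, zpow_natCast, div_pow, div_pow]
          have e0 : ∀ k : ℤ, ((k.toNat : ℤ) - ((-k).toNat : ℤ)).toNat = k.toNat := by
            intro k; omega
          have e0' : ∀ k : ℤ, (-((k.toNat : ℤ) - ((-k).toNat : ℤ))).toNat = (-k).toNat := by
            intro k; omega
          rw [e0, e0']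
          field_simp
        rw [Finset.prod_congr rfl (fun i _ => e1 i), Finset.prod_mul_distrib, h3]
        have e2 : evalEvalRingHom z v (C (C c)) = c := by simp
        rw [e2, sub_self]
      rw [h4, zero_mul]
    · push Not at h
      obtain ⟨i, hi⟩ := h
      have : ∏ i, evalEvalRingHom z v (A i * B i) = 0 := by
        apply Finset.prod_eq_zero (Finset.mem_univ i)
        rw [map_mul]
        by_cases ha : (A i).evalEval z v = 0
        · have : evalEvalRingHom z v (A i) = 0 := ha
          rw [this, zero_mul]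
        · have : evalEvalRingHom z v (B i) = 0 := hi ha
          rw [this, mul_zero]
      rw [this, mul_zero]
  rw [← hφ, map_mul, map_prod] at hdvd
  have hne : ∏ i, φ (A i * B i) ≠ 0 := by
    refine Finset.prod_ne_zero_iff.mpr fun i _ => ?_
    rw [map_mul]
    exact mul_ne_zero (hA i) (hB i)
  have hT0 := (mul_eq_zero.mp hdvd).resolve_right hne
  rw [hT, map_sub, map_mul, map_prod, map_prod, sub_eq_zero] at hT0
  have e3 : ∀ i, φ (A i ^ (m i).toNat * B i ^ (-(m i)).toNat) =
      y i ^ (m i).toNat * (φ (B i) ^ (m i).toNat * φ (B i) ^ (-(m i)).toNat) := by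
    intro i
    rw [map_mul, map_pow, map_pow, ← hy i, mul_pow]; ring
  have e4 : ∀ i, φ (B i ^ (m i).toNat * A i ^ (-(m i)).toNat) =
      y i ^ (-(m i)).toNat * (φ (B i) ^ (m i).toNat * φ (B i) ^ (-(m i)).toNat) := by
    intro i
    rw [map_mul, map_pow, map_pow, ← hy i, mul_pow]; ring
  obtain ⟨W, hW⟩ : ∃ W : Fin n → K, ∀ i, W i =
      φ (B i) ^ (m i).toNat * φ (B i) ^ (-(m i)).toNat := ⟨_, fun i => rfl⟩
  simp only [← hW] at e3 e4
  rw [Finset.prod_congr rfl (fun i _ => e3 i), Finset.prod_congr rfl (fun i _ => e4 i),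
    Finset.prod_mul_distrib, Finset.prod_mul_distrib, ← mul_assoc] at hT0
  refine mul_right_cancel₀ ?_ hT0
  refine Finset.prod_ne_zero_iff.mpr fun i _ => ?_
  rw [hW]
  exact mul_ne_zero (pow_ne_zero _ (hB i)) (pow_ne_zero _ (hB i))

/-- the degree hypothesis -/
theorem degree (h1 : S_res) (h2 : S_cov) (hF : Irreducible F) (hd : 1 ≤ F.natDegree)
    (hφ : ∀ G, φ G = 0 ↔ F ∣ G) (G : MvPolynomial (Fin n) K) (hG : Irreducible G)
    (PP : MvPolynomial (Fin n) ℂ[X][X])
    (E : ℂ[X][X]) (hE : φ E ≠ 0) (hPP : MvPolynomial.C (φ E) * G = MvPolynomial.map φ PP) :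
    ∃ z v : ℂ, F.evalEval z v = 0 ∧ 1 ≤ (spec PP z v).totalDegree := by
  classical
  obtain ⟨α, hα, hGα⟩ : ∃ α : Fin n →₀ ℕ, α ≠ 0 ∧ MvPolynomial.coeff α G ≠ 0 := by
    by_contra h
    push Not at h
    have h3 : G = MvPolynomial.C (MvPolynomial.coeff 0 G) := by
      ext α
      rw [MvPolynomial.coeff_C]
      split_ifs with h4
      · rw [h4]
      · exact h α (Ne.symm h4)
    have h5 : MvPolynomial.coeff 0 G ≠ 0 := by
      intro h6
      rw [h6, map_zero] at h3
      exact hG.ne_zero h3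
    apply hG.not_isUnit
    rw [h3]
    exact (isUnit_iff_ne_zero.mpr h5).map MvPolynomial.C
  have h3 : φ (MvPolynomial.coeff α PP) ≠ 0 := by
    rw [← MvPolynomial.coeff_map, ← hPP, MvPolynomial.coeff_C_mul]
    exact mul_ne_zero hE hGα
  have h4 : ¬ F ∣ MvPolynomial.coeff α PP := fun h => h3 ((hφ _).mpr h)
  obtain ⟨z, v, hz, hv⟩ : ∃ z v, F.evalEval z v = 0 ∧ (MvPolynomial.coeff α PP).evalEval z v ≠ 0 := by
    by_contra h
    push Not at h
    exact h4 (nss h1 h2 hF hd h)
  refine ⟨z, v, hz, ?_⟩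
  rw [← coeff_spec] at hv
  have h5 := MvPolynomial.le_totalDegree (MvPolynomial.mem_support_iff.mpr hv)
  refine le_trans ?_ h5
  obtain ⟨i, hi⟩ : ∃ i, α i ≠ 0 := by
    by_contra h
    push Not at h
    exact hα (Finsupp.ext h)
  rw [Finsupp.sum_fintype _ _ (fun _ => rfl)]
  exact (Nat.one_le_iff_ne_zero.mpr hi).trans (Finset.single_le_sum (fun _ _ => Nat.zero_le _)
    (Finset.mem_univ i))

end main

end Pool.Agent.W333.ECV
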