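import Pool.Agent.W333.ECV.A
import Pool.Agent.W333.ECV.B
import Pool.Agent.W333.ECV.C

/-!
EC project: from the explicit form of the main theorem to its form for varieties.
-/

set_option autoImplicit false
set_option linter.all false

namespace Pool.Agent.W333.ECV

open Polynomial Pool.Agent.W996.EC

/-- coefficients of `f(X, y)` -/
theorem coeff_fS {S : Type} [CommRing S] {n : ℕ} (c : ℂ →+* S) (y : Fin n → S)
    (f : MvPolynomial (Fin n ⊕ Fin n) ℂ) (u : Fin n →₀ ℕ) :
    MvPolynomial.coeff u (fS c y f) =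
      MvPolynomial.eval₂ c y (MvPolynomial.coeff u (MvPolynomial.sumAlgEquiv ℂ (Fin n) (Fin n) f)) := by
  unfold fS
  rw [MvPolynomial.coeff_map]
  rfl

theorem alg_const {L : Type} [Field L] [Algebra ℂ L] {u : L} (hu : IsAlgebraic ℂ u) :
    ∃ c : ℂ, algebraMap ℂ L c = u := by
  have hi : IsIntegral ℂ u := hu.isIntegral
  have hq : (minpoly ℂ u).leadingCoeff = 1 := minpoly.monic hi
  have h : (minpoly ℂ u).degree = 1 :=
    IsAlgClosed.degree_eq_one_of_irreducible ℂ (minpoly.irreducible hi)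
  have h0 : aeval u (minpoly ℂ u) = 0 := minpoly.aeval ℂ u
  rw [eq_X_add_C_of_degree_eq_one h, hq, C_1, one_mul, aeval_add, aeval_X, aeval_C,
    add_eq_zero_iff_eq_neg] at h0
  exact ⟨-(minpoly ℂ u).coeff 0, by rw [map_neg]; exact h0.symm⟩

theorem aevalAeval_sub {L : Type} [Field L] [Algebra ℂ L] (K : IntermediateField ℂ L) {z0 v0 : L}
    (hz : z0 ∈ K) (hv : v0 ∈ K) (G : ℂ[X][X]) :
    algebraMap K L (aevalAeval (⟨z0, hz⟩ : K) (⟨v0, hv⟩ : K) G) = aevalAeval z0 v0 G := by
  have h : (K.val).comp (aevalAeval (R := ℂ) (⟨z0, hz⟩ : K) (⟨v0, hv⟩ : K)) =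
      aevalAeval (R := ℂ) z0 v0 := by
    apply (aevalAevalEquiv ℂ L).symm.injective
    ext <;> simp
  exact DFunLike.congr_fun h G

theorem t_V (h1 : S_res) (h2 : S_cov) (h3 : S_kern) (h4 : S_plane) (h5 : S_main) : S_V := by
  classical
  intro n P V hP hV hadd hmul hdim hproj H hH
  obtain ⟨p0, hp0, hHp0⟩ := hH
  have hp0' := hp0
  rw [hV] at hp0'
  obtain ⟨hp0P, hp0n⟩ := hp0'
  rcases Nat.eq_zero_or_pos n with hn | hn
  · subst hn
    have e1 : (Sum.elim (fun i => i.elim0) (fun i : Fin 0 => Complex.exp (i.elim0)) :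
        Fin 0 ⊕ Fin 0 → ℂ) = p0 := by
      funext i
      rcases i with i | i <;> exact i.elim0
    refine ⟨fun i => i.elim0, fun f hf => ?_, ?_⟩
    · rw [e1]; exact hp0P f hf
    · have e2 : (fun i : Fin 0 => Complex.exp (i.elim0) : Fin 0 → ℂ) =
          fun j => p0 (Sum.inr j) := by
        funext i; exact i.elim0
      rw [e2]; exact hHp0
  -- the function field
  obtain ⟨L, iL, aL, ξ, hξ, hgen⟩ := exists_field P hP
  set x : Fin n → L := fun i => ξ (Sum.inl i) with hx
  set y : Fin n → L := fun i => ξ (Sum.inr i) with hy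
  have hxy : Sum.elim x y = ξ := by
    funext i
    rcases i with i | i <;> rfl
  have hVmem : ∀ p : Fin n ⊕ Fin n → ℂ, p ∈ V ↔
      (∀ f ∈ P, MvPolynomial.eval p f = 0) ∧ ∀ j : Fin n, p (Sum.inr j) ≠ 0 := by
    intro p; rw [hV]; rfl
  have hPV : ∀ f, f ∈ P ↔ ∀ p ∈ V, MvPolynomial.eval p f = 0 := by
    intro f
    constructor
    · intro hf p hp
      exact ((hVmem p).mp hp).1 f hf
    · intro hf
      refine nullst P hP (∏ i : Fin n, MvPolynomial.X (Sum.inr i)) ?_ f ?_
      · intro hg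
        have := hp0P _ hg
        rw [map_prod, Finset.prod_eq_zero_iff] at this
        obtain ⟨i, -, hi⟩ := this
        rw [MvPolynomial.eval_X] at hi
        exact hp0n i hi
      · intro p hp hg
        apply hf
        rw [hVmem]
        refine ⟨hp, fun j hj => hg ?_⟩
        rw [map_prod]
        apply Finset.prod_eq_zero (Finset.mem_univ j)
        rw [MvPolynomial.eval_X]; exact hj
  have hξV : ∀ f, MvPolynomial.aeval ξ f = 0 ↔ ∀ p ∈ V, MvPolynomial.eval p f = 0 :=
    fun f => (hξ f).trans (hPV f)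
  have hy0 : ∀ i, y i ≠ 0 := by
    intro i h
    have : MvPolynomial.aeval ξ (MvPolynomial.X (Sum.inr i) : MvPolynomial (Fin n ⊕ Fin n) ℂ) = 0 := by
      rw [MvPolynomial.aeval_X]; exact h
    have h6 := (hξV _).mp this p0 hp0
    rw [MvPolynomial.eval_X] at h6
    exact hp0n i h6
  have hmulL : ∀ m : Fin n → ℤ, m ≠ 0 → ∀ c : ℂ,
      ∏ i, y i ^ (m i).toNat ≠ algebraMap ℂ L c * ∏ i, y i ^ (-(m i)).toNat := by
    intro m hm c h
    obtain ⟨p, hp, hpc⟩ := hmul m hm c
    have h6 := (hξV (∏ i : Fin n, MvPolynomial.X (Sum.inr i) ^ (m i).toNat -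
      MvPolynomial.C c * ∏ i : Fin n, MvPolynomial.X (Sum.inr i) ^ (-(m i)).toNat)).mp (by
        rw [map_sub, map_mul, map_prod, map_prod, MvPolynomial.aeval_C, sub_eq_zero]
        simp only [map_pow, MvPolynomial.aeval_X]
        exact h) p hp
    rw [map_sub, map_mul, map_prod, map_prod, MvPolynomial.eval_C, sub_eq_zero] at h6
    simp only [map_pow, MvPolynomial.eval_X] at h6
    apply hpc
    have hpn := ((hVmem p).mp hp).2
    have e1 : ∀ j : Fin n, p (Sum.inr j) ^ (m j) =
        p (Sum.inr j) ^ (m j).toNat / p (Sum.inr j) ^ (-(m j)).toNat := by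
      intro j
      conv_lhs => rw [← Int.toNat_sub_toNat_neg (m j)]
      rw [zpow_sub₀ (hpn j), zpow_natCast, zpow_natCast]
    rw [Finset.prod_congr rfl (fun j _ => e1 j), Finset.prod_div_distrib, h6]
    refine mul_div_cancel_right₀ _ ?_
    exact Finset.prod_ne_zero_iff.mpr fun j _ => pow_ne_zero _ (hpn j)
  have haddL : ∀ m : Fin n → ℤ, m ≠ 0 → ∀ c : ℂ, ∑ i, (m i : L) * x i ≠ algebraMap ℂ L c := by
    intro m hm c h
    obtain ⟨p, hp, hpc⟩ := hadd m hm c
    have h6 := (hξV (∑ i : Fin n, MvPolynomial.C (m i : ℂ) * MvPolynomial.X (Sum.inl i) -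
      MvPolynomial.C c)).mp (by
        rw [map_sub, map_sum, MvPolynomial.aeval_C, sub_eq_zero]
        simp only [map_mul, MvPolynomial.aeval_C, MvPolynomial.aeval_X, map_intCast]
        exact h) p hp
    rw [map_sub, map_sum, MvPolynomial.eval_C, sub_eq_zero] at h6
    simp only [map_mul, MvPolynomial.eval_C, MvPolynomial.eval_X] at h6
    exact hpc h6
  have htr : Transcendental ℂ (y ⟨0, hn⟩) := by
    intro halg
    obtain ⟨c, hc⟩ := alg_const halg
    refine hmulL (Pi.single ⟨0, hn⟩ 1) ?_ c ?_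
    · intro h
      have := congrFun h ⟨0, hn⟩
      rw [Pi.single_eq_same] at this
      exact one_ne_zero this
    · have e1 : ∏ i, y i ^ ((Pi.single ⟨0, hn⟩ 1 : Fin n → ℤ) i).toNat = y ⟨0, hn⟩ := by
        rw [Finset.prod_eq_single ⟨0, hn⟩]
        · simp
        · intro j _ hj
          rw [Pi.single_eq_of_ne hj]; simp
        · intro h; exact absurd (Finset.mem_univ _) h
      have e2 : ∏ i, y i ^ (-((Pi.single ⟨0, hn⟩ 1 : Fin n → ℤ) i)).toNat = 1 := by
        apply Finset.prod_eq_one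
        intro j _
        by_cases hj : j = ⟨0, hn⟩
        · subst hj; simp
        · rw [Pi.single_eq_of_ne hj]; simp
      rw [e1, e2, mul_one, hc]
  have hdepL : ∀ i j, ∃ f : MvPolynomial (Fin 2) ℂ, f ≠ 0 ∧
      MvPolynomial.aeval ![y i, y j] f = 0 := by
    intro i j
    obtain ⟨f, hf, hf0⟩ := hproj i j
    refine ⟨f, hf, ?_⟩
    have h6 := (hξV (MvPolynomial.rename ![Sum.inr i, Sum.inr j] f)).mpr (by
      intro p hp
      rw [MvPolynomial.eval_rename]
      have e1 : (p ∘ ![Sum.inr i, Sum.inr j] : Fin 2 → ℂ) = ![p (Sum.inr i), p (Sum.inr j)] := by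
        funext k; fin_cases k <;> rfl
      rw [e1]
      exact hf0 p hp)
    rw [MvPolynomial.aeval_rename] at h6
    have e2 : (ξ ∘ ![Sum.inr i, Sum.inr j] : Fin 2 → L) = ![y i, y j] := by
      funext k; fin_cases k <;> rfl
    rwa [e2] at h6
  obtain ⟨J, hJc, hJ⟩ := hdim
  have hJi : AlgebraicIndependent ℂ (fun j : J => Sum.elim x y j) := by
    rw [algebraicIndependent_iff]
    intro f hf
    have h6 := hJ (MvPolynomial.rename Subtype.val f) (by
      intro k hk
      have := MvPolynomial.vars_rename Subtype.val f hk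
      obtain ⟨a, -, rfl⟩ := Finset.mem_image.mp this
      exact a.2) ((hξV _).mp (by
        rw [MvPolynomial.aeval_rename, ← hxy]
        exact hf))
    exact MvPolynomial.rename_injective _ Subtype.val_injective (by rw [h6, map_zero])
  obtain ⟨J', hJ'c, hJ'⟩ := trd (x := x) (y := y) (by rw [hxy]; exact hgen) hdepL J hJc hJi
  obtain ⟨F, z0, v0, hF, hFd, hker, hz0, hv0, hquot⟩ := h4 L n y ⟨_, htr⟩ hdepL
  set K := IntermediateField.adjoin ℂ (Set.range y) with hK
  obtain ⟨φ, hφL⟩ : ∃ φ : ℂ[X][X] →+* K, ∀ G, algebraMap K L (φ G) = aevalAeval z0 v0 G :=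
    ⟨(aevalAeval (R := ℂ) (⟨z0, hz0⟩ : K) (⟨v0, hv0⟩ : K)).toRingHom,
      fun G => aevalAeval_sub K hz0 hv0 G⟩
  have hinj : Function.Injective (algebraMap K L) := (algebraMap K L).injective
  have hφ : ∀ G, φ G = 0 ↔ F ∣ G := by
    intro G
    rw [← hker, ← hφL, map_eq_zero_iff _ hinj]
  have hd : ∀ u : K, ∃ A B : ℂ[X][X], φ B ≠ 0 ∧ u * φ B = φ A := by
    intro u
    obtain ⟨A, B, hB, h⟩ := hquot u.1 u.2
    refine ⟨A, B, fun h0 => hB ?_, hinj ?_⟩
    · rw [← hφL, h0, map_zero]
    · rw [map_mul, hφL, hφL]; exact h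
  set yK : Fin n → K := fun i => ⟨y i, IntermediateField.subset_adjoin _ _ ⟨i, rfl⟩⟩ with hyK
  have hyKL : ∀ i, algebraMap K L (yK i) = y i := fun i => rfl
  choose A B hB hyAB using fun i => hd (yK i)
  have hyK0 : ∀ i, yK i ≠ 0 := by
    intro i h
    apply hy0 i
    rw [← hyKL, h, map_zero]
  have hA : ∀ i, φ (A i) ≠ 0 := by
    intro i
    rw [← hyAB]
    exact mul_ne_zero (hyK0 i) (hB i)
  have hcc : (algebraMap K L).comp (φ.comp (C.comp C)) = algebraMap ℂ L := by
    apply RingHom.ext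
    intro a
    show algebraMap K L (φ (C (C a))) = _
    rw [hφL]
    have : (C (C a) : ℂ[X][X]) = algebraMap ℂ ℂ[X][X] a := rfl
    rw [this, AlgHom.commutes]
  have hccK : φ.comp (C.comp C) = algebraMap ℂ K := by
    apply RingHom.ext
    intro a
    apply hinj
    exact DFunLike.congr_fun hcc a
  have hfS : ∀ f, MvPolynomial.aeval x (fS (φ.comp (C.comp C)) yK f) = MvPolynomial.aeval ξ f := by
    intro f
    rw [aeval_fS, hcc, ← hxy, MvPolynomial.aeval_def]
    rfl
  by_cases hxi : AlgebraicIndependent K x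
  · -- the case of full fibres
    have key : ∀ f ∈ P, fS (RingHom.id ℂ) (fun j => p0 (Sum.inr j)) f = 0 := by
      intro f hf
      have h6 : fS (φ.comp (C.comp C)) yK f = 0 := by
        rw [algebraicIndependent_iff] at hxi
        apply hxi
        rw [hfS]
        exact (hξ f).mpr hf
      ext u
      rw [coeff_fS, MvPolynomial.coeff_zero]
      have h7 := congrArg (MvPolynomial.coeff u) h6
      rw [coeff_fS, MvPolynomial.coeff_zero] at h7
      set q := MvPolynomial.coeff u (MvPolynomial.sumAlgEquiv ℂ (Fin n) (Fin n) f) with hq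
      have h8 := congrArg (algebraMap K L) h7
      rw [MvPolynomial.hom_eval₂, hcc, map_zero] at h8
      have h9 : MvPolynomial.aeval ξ (MvPolynomial.rename Sum.inr q) = 0 := by
        rw [MvPolynomial.aeval_rename, MvPolynomial.aeval_def]
        exact h8
      have h10 := (hξV _).mp h9 p0 hp0
      rw [MvPolynomial.eval_rename] at h10
      exact h10
    refine ⟨fun i => Complex.log (p0 (Sum.inr i)), ?_, ?_⟩
    · intro f hf
      have e1 : (fun i : Fin n => Complex.exp (Complex.log (p0 (Sum.inr i)))) =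
          fun j => p0 (Sum.inr j) := by
        funext i
        exact Complex.exp_log (hp0n i)
      rw [e1]
      have h6 := eval_fS (RingHom.id ℂ) (fun i => Complex.log (p0 (Sum.inr i)))
        (fun j => p0 (Sum.inr j)) f
      rw [key f hf, map_zero] at h6
      exact h6.symm
    · have e1 : (fun i : Fin n => Complex.exp (Complex.log (p0 (Sum.inr i)))) =
          fun j => p0 (Sum.inr j) := by
        funext i
        exact Complex.exp_log (hp0n i)
      rw [e1]
      exact hHp0
  -- the hypersurface case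
  obtain ⟨G, hG, hGx⟩ := h3 K L n x hxi ⟨J', hJ'c, hJ'⟩
  obtain ⟨E, PP, hE, hPP⟩ := clear hd G
  have hDf : ∀ f ∈ P, ∃ D : ℂ[X][X], φ D ≠ 0 ∧ ∀ (z v : ℂ) (u : Fin n → ℂ),
      F.evalEval z v = 0 → (∀ i, (B i).evalEval z v ≠ 0) → D.evalEval z v ≠ 0 →
      MvPolynomial.eval u (spec PP z v) = 0 →
      MvPolynomial.eval (Sum.elim u (fun i => (A i).evalEval z v / (B i).evalEval z v)) f = 0 := by
    intro f hf
    have h6 : G ∣ fS (φ.comp (C.comp C)) yK f := by
      rw [← hGx, hfS]
      exact (hξ f).mpr hf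
    obtain ⟨q, hq⟩ := h6
    obtain ⟨D, Q, hD, hQ⟩ := clear hd q
    refine ⟨E * D, ?_, fun z v u hz hv hED hu => ?_⟩
    · rw [map_mul]; exact mul_ne_zero hE hD
    · have h7 := transfer hφ hB hyAB f (E * D) (PP * Q) (by
        rw [hq, map_mul φ, map_mul MvPolynomial.C, map_mul (MvPolynomial.map φ), ← hPP, ← hQ]
        ring) z v hz hv
      have h8 := congrArg (MvPolynomial.eval u) h7
      rw [map_mul, MvPolynomial.eval_C, eval_fS] at h8
      have h9 : MvPolynomial.eval u (spec (PP * Q) z v) = 0 := by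
        have : spec (PP * Q) z v = spec PP z v * spec Q z v := by
          unfold spec; rw [map_mul]
        rw [this, map_mul, hu, zero_mul]
      rw [h9] at h8
      exact (mul_eq_zero.mp h8).resolve_left hED
  choose! D hD1 hD2 using hDf
  obtain ⟨s, hs⟩ : P.FG := IsNoetherian.noetherian P
  have hsP : ∀ f ∈ s, f ∈ P := fun f hf => by rw [← hs]; exact Ideal.subset_span hf
  obtain ⟨N, hN, hN2⟩ := numer hφ hB hyAB H (by
    intro h0
    have h6 := congrArg (algebraMap K L) h0
    rw [MvPolynomial.hom_eval₂, hcc, map_zero] at h6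
    have h9 : MvPolynomial.aeval ξ (MvPolynomial.rename Sum.inr H) = 0 := by
      rw [MvPolynomial.aeval_rename, MvPolynomial.aeval_def]
      exact h6
    have h10 := (hξV _).mp h9 p0 hp0
    rw [MvPolynomial.eval_rename] at h10
    exact hHp0 h10)
  obtain ⟨z, v, u, hz, hH', hAB, hexp, hPu⟩ := h5 n F ((∏ f ∈ s, D f) * N) A B PP hF hFd
    (by
      rw [← hφ, map_mul, map_prod]
      exact mul_ne_zero (Finset.prod_ne_zero_iff.mpr fun f hf => hD1 f (hsP f hf)) hN)
    (fun i => by rw [← hφ]; exact hA i) (fun i => by rw [← hφ]; exact hB i)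
    (by
      intro m hm c
      by_contra hcon
      push Not at hcon
      have h6 := multiplicative h1 h2 hF hFd hφ A B hA hB yK hyAB m c
        (fun z v hz hv => hcon z v hz hv)
      have h7 := congrArg (algebraMap K L) h6
      rw [map_mul, map_prod, map_prod] at h7
      simp only [map_pow, hyKL] at h7
      refine hmulL m hm c ?_
      rw [h7]
      congr 1
      exact DFunLike.congr_fun hcc c)
    (by
      intro m hm c
      by_contra hcon
      push Not at hcon
      have h6 := additive h1 h2 hF hFd hφ x G hG hGx PP E hE hPP m hm c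
        (fun z v u hz hu => hcon z v u hz hu)
      refine haddL m hm c ?_
      rw [h6]
      exact DFunLike.congr_fun hcc c)
    (degree h1 h2 hF hFd hφ G hG PP E hE hPP)
  have hsplit : (evalEvalRingHom z v) (∏ f ∈ s, D f) ≠ 0 ∧ (evalEvalRingHom z v) N ≠ 0 := by
    have : (evalEvalRingHom z v) ((∏ f ∈ s, D f) * N) ≠ 0 := hH'
    rw [map_mul] at this
    exact ⟨left_ne_zero_of_mul this, right_ne_zero_of_mul this⟩
  have hexp' : (fun i => Complex.exp (u i)) =
      fun i => (A i).evalEval z v / (B i).evalEval z v := funext hexp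
  refine ⟨u, ?_, ?_⟩
  · rw [hexp']
    have hle : P ≤ RingHom.ker (MvPolynomial.eval
        (Sum.elim u (fun i => (A i).evalEval z v / (B i).evalEval z v))) := by
      rw [← hs, Ideal.span_le]
      intro f hf
      show _ ∈ RingHom.ker _
      rw [RingHom.mem_ker]
      refine hD2 f (hsP f hf) z v u hz (fun i => (hAB i).2) ?_ hPu
      have := hsplit.1
      rw [map_prod, Finset.prod_ne_zero_iff] at this
      exact this f hf
    intro f hf
    exact RingHom.mem_ker.mp (hle hf)
  · rw [hexp']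
    exact hN2 z v hz (fun i => (hAB i).2) hsplit.2

end Pool.Agent.W333.ECV
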